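import Pool.Agent.Helper749.ConeFinal

set_option autoImplicit false

namespace Pool.Agent.Results.MP_c081e6_an.SimonsCone

open Filter Topology
open Pool.Agent.Helper749.PReg

/-- In dimension `8` the degree of regularity of `p`-harmonic functions is at most `3` for every
`1 < p < 2`, so it is false that `γ(n,p) → ∞` as `p → 1⁺` for every dimension `n ≥ 3`. -/
theorem result :
    (∀ p : ℝ, 1 < p → p < 2 → gammaReg 8 p ≤ 3) ∧
      ¬ ∀ n : ℕ, 3 ≤ n → Tendsto (fun p => gammaReg n p) (𝓝[>] 1) (𝓝 ⊤) :=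
  ⟨fun _ h1 h2 => Pool.Agent.Helper749.ConeFinal.gamma_le h1 h2,
    Pool.Agent.Helper749.ConeFinal.not_tendsto⟩

end Pool.Agent.Results.MP_c081e6_an.SimonsCone
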